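import Pool.Agent.Run7.h653.AE.Dc

/-!
The coding of structures in flips of subdivided graphs.
-/

set_option autoImplicit false

namespace Pool.Agent.Run7.h653.AE

open FirstOrder FirstOrder.Language Cardinal
open Pool.Agent.TH748.CG
open Filter

section

variable {L : FirstOrder.Language.{0, 0}} {M : Type} [L.Structure M]
  (cd : (Σ n, L.Relations n) → ℕ)

/-- the bipartite complement -/
def AdC (u w : Vx L M) : Prop := (PartV u ↔ ¬ PartV w) ∧ ¬ AdjV cd u w

theorem adC_symm (u w : Vx L M) (h : AdC cd u w) : AdC cd w u := by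
  refine ⟨?_, fun h' => h.2 (adjV_symm cd h')⟩
  have := h.1
  tauto

/-- for infinitely many `a` -/
theorem fr_nat {Q : ℕ → Prop} {K : ℕ} (h : ∀ a, K ≤ a → Q a) : ∃ᶠ a in cofinite, Q a := by
  rw [Filter.frequently_cofinite_iff_infinite]
  exact (Set.infinite_of_not_bddAbove fun ⟨b, hb⟩ => by
    have h1 : max K (b + 1) ∈ {a | Q a} := h _ (le_max_left _ _)
    have := hb h1
    omega)

/-- leaves in the other part which are not adjacent to `u` and `w` -/
theorem adC_leaf (u : Vx L M) : ∃ K, ∀ a, K ≤ a → (PartV u ↔ a % 2 = 1) → AdC cd u (.l a) := by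
  have h1 : ∃ K, ∀ a, K ≤ a → u ≠ .s a := by
    cases u with
    | s b =>
      refine ⟨b + 1, fun a ha h => ?_⟩
      have := Vx.s.inj h
      omega
    | _ => exact ⟨0, fun a _ h => by simp at h⟩
  obtain ⟨K, hK⟩ := h1
  refine ⟨K, fun a ha h => ⟨?_, fun h' => ?_⟩⟩
  · have h2 : PartV (.l a : Vx L M) ↔ a % 2 = 0 := Iff.rfl
    rw [h, h2]
    omega
  · exact hK a ha ((adj_l cd a u).1 (adjV_symm cd h'))

theorem adC_fr (u : Vx L M) : ∃ᶠ w in cofinite, AdC cd u w := by
  obtain ⟨K, hK⟩ := adC_leaf cd u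
  by_cases hu : PartV u
  · have h1 : Function.Injective (fun a => .l (2 * a + 1) : ℕ → Vx L M) := fun a b h => by
      have := Vx.l.inj h
      omega
    refine h1.tendsto_cofinite.frequently (fr_nat (K := K) fun a ha => hK _ (by omega) ?_)
    exact iff_of_true hu (by omega)
  · have h1 : Function.Injective (fun a => .l (2 * a) : ℕ → Vx L M) := fun a b h => by
      have := Vx.l.inj h
      omega
    refine h1.tendsto_cofinite.frequently (fr_nat (K := K) fun a ha => hK _ (by omega) ?_)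
    exact iff_of_false hu (by omega)

theorem adC_thin (u : Vx L M) : ¬ thin (AdC cd) u := by
  rintro ⟨y, z, -, -, -, h⟩
  obtain ⟨w, h1, h2, h3⟩ := ((adC_fr cd u).and_eventually ((ev_ne y).and (ev_ne z))).exists
  rcases h w h1 with h4 | h4
  · exact h2 h4
  · exact h3 h4

/-- the adjacency is definable from the bipartite complement -/
theorem adj_of_adC (u w : Vx L M) :
    AdjV cd u w ↔ ¬ AdC cd u w ∧ ¬ ∃ z, AdC cd u z ∧ AdC cd w z := by
  constructor
  · intro h
    have h1 := adjV_part cd h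
    refine ⟨fun h' => h'.2 h, ?_⟩
    rintro ⟨z, h2, h3⟩
    have := h2.1
    have := h3.1
    tauto
  · rintro ⟨h1, h2⟩
    by_contra h3
    have h4 : PartV u ↔ PartV w := by
      by_contra h5
      exact h1 ⟨by tauto, h3⟩
    obtain ⟨K, hK⟩ := adC_leaf cd u
    obtain ⟨K', hK'⟩ := adC_leaf cd w
    apply h2
    by_cases hu : PartV u
    · refine ⟨.l (2 * (K + K') + 1), hK _ (by omega) (iff_of_true hu (by omega)),
        hK' _ (by omega) (iff_of_true (h4.1 hu) (by omega))⟩
    · refine ⟨.l (2 * (K + K')), hK _ (by omega) (iff_of_false hu (by omega)),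
        hK' _ (by omega) (iff_of_false (fun h => hu (h4.2 h)) (by omega))⟩

theorem vMap_adC {M' : Type} [L.Structure M'] (f : M ↪[L] M') (u w : Vx L M) :
    AdC cd (vMap f u) (vMap f w) ↔ AdC cd u w := by
  unfold AdC
  rw [vMap_part, vMap_part, vMap_adj]

end

section map

variable {V W : Type} {A : V → V → Prop} {P : V → Prop} {A' : W → W → Prop} {P' : W → Prop}
  {N : ℕ} (f : V → W) (hA : ∀ u w, A' (f u) (f w) ↔ A u w) (hP : ∀ u, P' (f u) ↔ P u)

theorem rt_map (x : Sv A P N) : rt (svMap f hA hP x) = (rt x).map f := by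
  cases x with
  | o v => rfl
  | md u w h i =>
    show (if i.1 = 0 then some (f u) else if i.1 + 1 = N then some (f w) else none) = _
    rw [rt_md]
    split_ifs <;> rfl

theorem lay_map (x : Sv A P N) : lay (svMap f hA hP x) = lay x := by
  cases x <;> rfl

theorem ss_map (hf : Function.Injective f) (hN : 2 ≤ N) (c : Prop) (x y : Sv A P N) :
    SS c (svMap f hA hP x) (svMap f hA hP y) ↔ SS c x y := by
  unfold SS
  rw [svMap_bs f hA hP hf (by omega), rt_map, rt_map, Ne,
    (svMap_inj f hA hP hf).eq_iff]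
  have h1 : (∃ v, (rt x).map f = some v ∧ (rt y).map f = some v) ↔
      ∃ v, rt x = some v ∧ rt y = some v := by
    constructor
    · rintro ⟨v, h1, h2⟩
      obtain ⟨a, h3, h4⟩ := Option.map_eq_some_iff.1 h1
      obtain ⟨b, h5, h6⟩ := Option.map_eq_some_iff.1 h2
      obtain rfl := hf (h4.trans h6.symm)
      exact ⟨a, h3, h5⟩
    · rintro ⟨v, h1, h2⟩
      exact ⟨f v, by rw [h1]; rfl, by rw [h2]; rfl⟩
  rw [h1]

theorem yy_map (hf : Function.Injective f) (hN : 2 ≤ N) (c : Prop) (g : ℕ → ℕ → Prop)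
    (x y : Sv A P N) : YY c g (svMap f hA hP x) (svMap f hA hP y) ↔ YY c g x y := by
  unfold YY
  rw [ss_map f hA hP hf hN, lay_map, lay_map, Ne, (svMap_inj f hA hP hf).eq_iff]

end map

section

variable {L : FirstOrder.Language.{0, 0}} [L.IsRelational] {cd : (Σ n, L.Relations n) → ℕ}
  (hcd : Function.Injective cd) {N : ℕ} (hN : 2 ≤ N)

/-- the code -/
abbrev FC (L : FirstOrder.Language.{0, 0}) (cd : (Σ n, L.Relations n) → ℕ) (N : ℕ) (M : Type)
    [L.Structure M] : Type :=
  Sv (AdC cd : Vx L M → Vx L M → Prop) PartV N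

include hcd hN in
theorem fc_full {M M' : Type} [L.Structure M] [L.Structure M'] (c : Prop) (g : ℕ → ℕ → Prop)
    (ψ : FC L cd N M ≃ FC L cd N M') (hψ0 : ∀ x y, YY c g (ψ x) (ψ y) ↔ YY c g x y) :
    ∃ e : M ≃[L] M', ∀ x, ψ x = svMap (vMap e.toEmbedding) (vMap_adC cd _) (vMap_part _) x := by
  have hr : 1 ≤ N := by omega
  have hP : ∀ (M : Type) [L.Structure M] (u w : Vx L M), AdC cd u w →
      (PartV u ↔ ¬ PartV w) := fun M _ u w h => h.1
  have hs : ∀ (M : Type) [L.Structure M] (u w : Vx L M), AdC cd u w → AdC cd w u :=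
    fun M _ u w h => adC_symm cd u w h
  have hψ : ∀ x y, BS (ψ x) (ψ y) ↔ BS x y := by
    intro x y
    rw [← dec_iff (c := c) (g := g) (hP M') hN (adC_fr cd) (hs M'),
      ← dec_iff (c := c) (g := g) (hP M) hN (adC_fr cd) (hs M)]
    exact dec_tr ψ hψ0 x y
  have ho : ∀ (M : Type) [L.Structure M] (x : FC L cd N M), ¬ thin BS x ↔
      ∃ v, x = .o v := by
    intro M _ x
    rw [thin_iff (hP M) (hs M) hr (adC_thin cd)]
    constructor
    · intro h
      cases x with
      | o v => exact ⟨v, rfl⟩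
      | md u w h0 i =>
        refine absurd ⟨u, w, h0, i + 1, by omega, i.2, ?_⟩ h
        rw [ps_md u w h0 (by omega) i.2]
        rfl
    · rintro ⟨v, rfl⟩ ⟨u, w, h, j, h1, h2, h3⟩
      rcases ps_eq_o h3.symm with ⟨h4, -⟩ | ⟨h4, -⟩ <;> omega
  have hψ' : ∀ x y, BS (ψ.symm x) (ψ.symm y) ↔ BS x y := fun x y => by
    rw [← hψ, ψ.apply_symm_apply, ψ.apply_symm_apply]
  have h1 : ∀ v, ∃ v', ψ (.o v) = .o v' := fun v =>
    (ho M' _).1 fun h => (ho M (.o v)).2 ⟨v, rfl⟩ ((thin_eq ψ hψ _).1 h)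
  have h2 : ∀ v, ∃ v', ψ.symm (.o v) = .o v' := fun v =>
    (ho M _).1 fun h => (ho M' (.o v)).2 ⟨v, rfl⟩ ((thin_eq ψ.symm hψ' _).1 h)
  choose f hf using h1
  choose k hk using h2
  have hgf : ∀ x, k (f x) = x := by
    intro x
    have h := hk (f x)
    rw [← hf, ψ.symm_apply_apply] at h
    exact (Sv.o.inj h).symm
  have hfg : ∀ y, f (k y) = y := by
    intro y
    have h := hf (k y)
    rw [← hk, ψ.apply_symm_apply] at h
    exact (Sv.o.inj h).symm
  let φ : Vx L M ≃ Vx L M' := ⟨f, k, hgf, hfg⟩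
  have had : ∀ (M : Type) [L.Structure M] (u w : Vx L M),
      AdS BS N (.o u : FC L cd N M) (.o w) ↔ AdC cd u w := by
    intro M _ u w
    rw [ads_iff (hP M) (hs M) hr (adC_thin cd)]
    constructor
    · rintro ⟨u', w', h1, h2, h3⟩
      rw [Sv.o.inj h1, Sv.o.inj h2]
      exact h3
    · intro h
      exact ⟨u, w, rfl, rfl, h⟩
  have hφC : ∀ u w, AdC cd (φ u) (φ w) ↔ AdC cd u w := by
    intro u w
    rw [← had M', ← had M]
    change AdS BS N (.o (f u)) (.o (f w)) ↔ _
    rw [← hf, ← hf]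
    constructor
    · rintro ⟨x, hx⟩
      refine ⟨ψ.symm x, ?_⟩
      have h := pth_eq ψ.symm hψ' hx
      rw [ψ.symm_apply_apply, ψ.symm_apply_apply] at h
      exact h
    · rintro ⟨x, hx⟩
      exact ⟨ψ x, pth_eq ψ hψ hx⟩
  have hφ : ∀ u w, AdjV cd (φ u) (φ w) ↔ AdjV cd u w := by
    intro u w
    rw [adj_of_adC, adj_of_adC, hφC]
    refine and_congr Iff.rfl (not_congr ?_)
    constructor
    · rintro ⟨z, h1, h2⟩
      obtain ⟨z, rfl⟩ := φ.surjective z
      exact ⟨z, (hφC _ _).1 h1, (hφC _ _).1 h2⟩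
    · rintro ⟨z, h1, h2⟩
      exact ⟨φ z, (hφC _ _).2 h1, (hφC _ _).2 h2⟩
  obtain ⟨e, he⟩ := v_full hcd φ hφ
  have hfe : ∀ u, f u = vMap e.toEmbedding u := he
  refine ⟨e, fun x => ?_⟩
  cases x with
  | o v =>
    rw [hf, hfe]
    rfl
  | md u w h i =>
    have h3 : Pth BS N i (.o u) (.o w) (.md u w h i : FC L cd N M) := by
      refine (pth_iff (hP M) (hs M) hr (adC_thin cd) i.2 u w _).2 (Or.inl ⟨h, ?_⟩)
      rw [ps_md u w h (by omega) i.2]
      rfl
    have h4 := pth_eq ψ hψ h3
    rw [hf, hf] at h4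
    have hu : PartV (f u) := by
      rw [hfe]
      exact (vMap_part _ u).2 h.1
    rcases (pth_iff (hP M') (hs M') hr (adC_thin cd) i.2 (f u) (f w) _).1 h4 with
      ⟨h5, h6⟩ | ⟨h5, h6⟩
    · rw [h6, ps_md _ _ h5 (by omega) i.2]
      have key : ∀ (a b : Vx L M') (ha : a = vMap e.toEmbedding u)
          (hb : b = vMap e.toEmbedding w) (h7 : PartV a ∧ AdC cd a b)
          (h8 : i.1 + 1 - 1 < N),
          (Sv.md a b h7 ⟨i.1 + 1 - 1, h8⟩ : FC L cd N M') =
          svMap (vMap e.toEmbedding) (vMap_adC cd _) (vMap_part _) (.md u w h i) := by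
        rintro _ _ rfl rfl h7 h8
        rfl
      exact key _ _ (hfe u) (hfe w) h5 _
    · exact absurd h5.1 (((hφC u w).2 h.2).1.1 hu)

end

/-- **The coding in flips of subdivided graphs** -/
def codF {L : FirstOrder.Language.{0, 0}} [L.IsRelational] {cd : (Σ n, L.Relations n) → ℕ}
    (hcd : Function.Injective cd) {N : ℕ} (hN : 2 ≤ N) (c : Prop) (g : ℕ → ℕ → Prop) :
    Coding L Gr (fun _ _ => True) ℵ₀ where
  C M _ := FC L cd N M
  str M _ := mkGr (YY c g)
  map f := svMap (vMap f) (vMap_adC cd f) (vMap_part f)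
  map_inj f := svMap_inj _ _ _ (vMap_inj f)
  map_rel f _ R v := by
    cases R
    exact yy_map _ _ _ (vMap_inj f) hN c g _ _
  map_id := by
    intro M _ x
    cases x with
    | o v => exact congrArg Sv.o (vMap_id v)
    | md u w h i =>
      have key : ∀ (a b : Vx L M) (ha : a = u) (hb : b = w) (h7 : PartV a ∧ AdC cd a b),
          (Sv.md a b h7 i : FC L cd N M) = .md u w h i := by
        rintro _ _ rfl rfl h7
        rfl
      exact key _ _ (vMap_id u) (vMap_id w) _
  map_comp := by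
    intro M M' R _ _ _ g f x
    cases x with
    | o v => exact congrArg Sv.o (vMap_comp g f v)
    | md u w h i =>
      have key : ∀ (a b a' b' : Vx L R) (ha : a = a') (hb : b = b')
          (h7 : PartV a ∧ AdC cd a b) (h8 : PartV a' ∧ AdC cd a' b'),
          (Sv.md a b h7 i : FC L cd N R) = .md a' b' h8 i := by
        rintro _ _ _ _ rfl rfl h7 h8
        rfl
      exact key _ _ _ _ (vMap_comp g f u) (vMap_comp g f w) _ _
  pt x := .o (.elt x)
  pt_inj := by
    intro M _ x y h
    exact Vx.elt.inj (Sv.o.inj h)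
  map_pt _ _ := rfl
  pt_of_map f x y h := by
    cases x with
    | o v =>
      obtain ⟨x, rfl⟩ := vMap_elt f (Sv.o.inj h)
      exact ⟨x, rfl⟩
    | md u w h0 i => exact absurd h (by simp [svMap])
  full := by
    intro M M' _ _ hM hM' φ
    letI : Gr.Structure (FC L cd N M) := mkGr (YY c g)
    letI : Gr.Structure (FC L cd N M') := mkGr (YY c g)
    exact fc_full hcd hN c g φ.toEquiv fun u w =>
      φ.map_rel (FirstOrder.Language.adj : Gr.Relations 2) ![u, w]
  supp M _ x := by
    classical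
    cases x with
    | o v =>
      obtain ⟨s, hs⟩ := v_supp v
      refine ⟨s, fun M' _ f hf => ?_⟩
      obtain ⟨u, rfl⟩ := hs M' f hf
      exact ⟨.o u, rfl⟩
    | md u w h i =>
      obtain ⟨s, hs⟩ := v_supp u
      obtain ⟨t, ht⟩ := v_supp w
      refine ⟨s ∪ t, fun M' _ f hf => ?_⟩
      obtain ⟨u', rfl⟩ := hs M' f fun x hx => hf x (Finset.mem_union_left _ hx)
      obtain ⟨w', rfl⟩ := ht M' f fun x hx => hf x (Finset.mem_union_right _ hx)
      exact ⟨.md u' w' ⟨(vMap_part f u').1 h.1, (vMap_adC cd f u' w').1 h.2⟩ i, rfl⟩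
  card_le M _ := by
    let F : FC L cd N M → (Vx L M × Vx L M) × ℕ := fun x => match x with
      | .o v => ((v, v), 0)
      | .md u w _ i => ((u, w), i + 1)
    have hF : Function.Injective F := by
      intro x y h
      cases x with
      | o v =>
        cases y with
        | o w =>
          rw [show v = w from congrArg (fun p => p.1.1) h]
        | md u w h0 i => exact absurd (congrArg Prod.snd h) (by change ¬ (0 = i.1 + 1); omega)
      | md u w h0 i =>
        cases y with
        | o v => exact absurd (congrArg Prod.snd h) (by change ¬ (i.1 + 1 = 0); omega)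
        | md u' w' h0' i' =>
          obtain rfl : u = u' := congrArg (fun p => p.1.1) h
          obtain rfl : w = w' := congrArg (fun p => p.1.2) h
          have h3 : i.1 + 1 = i'.1 + 1 := congrArg Prod.snd h
          have h4 : i = i' := Fin.ext (by omega)
          rw [h4]
    refine (Cardinal.mk_le_of_injective hF).trans ?_
    have h1 := v_card hcd M
    simp only [Cardinal.mk_prod, Cardinal.lift_id, Cardinal.mk_nat]
    refine (Cardinal.mul_le_max _ _).trans (max_le (max_le ?_ (le_max_right _ _))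
      (le_max_right _ _))
    exact (Cardinal.mul_le_max _ _).trans (max_le (max_le h1 h1) (le_max_right _ _))

end Pool.Agent.Run7.h653.AE
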