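import Pool.Agent.TH748.CG.AeSub

/-!
Subdivided graphs with flips between layers: the edges are definable from the flipped graph.
-/

set_option autoImplicit false

namespace Pool.Agent.Run7.h653.AE

open Pool.Agent.TH748.CG
open Filter

/-! ## Decoding -/

section dec

variable {T : Type} (Y : T → T → Prop)

/-- the same neighbours up to finitely many -/
def Eqv (u v : T) : Prop := ∀ᶠ w in cofinite, (Y u w ↔ Y v w)

/-- the value at `(z, w)` differs from almost all values at `(z', w)` for `z'` in the class of `z` -/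
def Ir (z w : T) : Prop :=
  w ≠ z ∧ (∃ᶠ z' in cofinite, Eqv Y z z') ∧ ∀ᶠ z' in cofinite, Eqv Y z z' → ¬ (Y z' w ↔ Y z w)

/-- no irregular pairs -/
def Rt (z : T) : Prop := ∀ w, ¬ Ir Y z w

/-- the only exceptional root -/
def RL (u v : T) : Prop := u ≠ v ∧ Rt Y u ∧ ∀ u', Rt Y u' → (Y u' v ↔ Y u v) → u' = u

/-- the decoded edges -/
def Dec (x y : T) : Prop := Ir Y x y ∨ Ir Y y x ∨ RL Y x y ∨ RL Y y x

end dec

section tr

variable {T T' : Type} {Y : T → T → Prop} {Y' : T' → T' → Prop} (ψ : T ≃ T')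
  (hψ : ∀ x y, Y' (ψ x) (ψ y) ↔ Y x y)

theorem ev_tr (q : T' → Prop) : (∀ᶠ y in cofinite, q y) ↔ ∀ᶠ x in cofinite, q (ψ x) := by
  constructor
  · exact fun h => ψ.injective.tendsto_cofinite.eventually h
  · intro h
    have h1 := ψ.symm.injective.tendsto_cofinite.eventually h
    exact h1.mono fun y hy => by rwa [ψ.apply_symm_apply] at hy

theorem fr_tr (q : T' → Prop) : (∃ᶠ y in cofinite, q y) ↔ ∃ᶠ x in cofinite, q (ψ x) := by
  rw [Filter.Frequently, Filter.Frequently, ev_tr ψ]

include hψ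

theorem eqv_tr (u v : T) : Eqv Y' (ψ u) (ψ v) ↔ Eqv Y u v := by
  unfold Eqv
  rw [ev_tr ψ]
  simp only [hψ]

theorem ir_tr (z w : T) : Ir Y' (ψ z) (ψ w) ↔ Ir Y z w := by
  unfold Ir
  rw [fr_tr ψ, ev_tr ψ]
  simp only [hψ, eqv_tr ψ hψ, Ne, ψ.injective.eq_iff]

theorem rt_tr (z : T) : Rt Y' (ψ z) ↔ Rt Y z := by
  unfold Rt
  constructor
  · exact fun h w hw => h (ψ w) ((ir_tr ψ hψ _ _).2 hw)
  · intro h w hw
    refine h (ψ.symm w) ((ir_tr ψ hψ _ _).1 ?_)
    rwa [ψ.apply_symm_apply]

theorem rl_tr (u v : T) : RL Y' (ψ u) (ψ v) ↔ RL Y u v := by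
  unfold RL
  refine and_congr (not_congr ψ.injective.eq_iff) (and_congr (rt_tr ψ hψ _) ?_)
  constructor
  · intro h u' h1 h2
    exact ψ.injective (h (ψ u') ((rt_tr ψ hψ _).2 h1) (by rw [hψ, hψ]; exact h2))
  · intro h u' h1 h2
    obtain ⟨u', rfl⟩ := ψ.surjective u'
    rw [hψ, hψ] at h2
    rw [h u' ((rt_tr ψ hψ _).1 h1) h2]

theorem dec_tr (x y : T) : Dec Y' (ψ x) (ψ y) ↔ Dec Y x y := by
  unfold Dec
  rw [ir_tr ψ hψ, ir_tr ψ hψ, rl_tr ψ hψ, rl_tr ψ hψ]

end tr

/-! ## The layered graph -/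

section sub

variable {V : Type} {A : V → V → Prop} {P : V → Prop} {N : ℕ}

/-- the root next to a vertex -/
def rt : Sv A P N → Option V
  | .o _ => none
  | .md u w _ i => if i.1 = 0 then some u else if i.1 + 1 = N then some w else none

/-- the layer -/
def lay : Sv A P N → ℕ
  | .o _ => 0
  | .md _ _ _ i => min (i.1 + 1) (N - i.1)

/-- the layered graph: a subdivided graph, in case `c` with cliques on the neighbourhoods of the
roots -/
def SS (c : Prop) (x y : Sv A P N) : Prop :=
  BS x y ∨ (c ∧ x ≠ y ∧ ∃ v, rt x = some v ∧ rt y = some v)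

/-- the flip of the layered graph -/
def YY (c : Prop) (g : ℕ → ℕ → Prop) (x y : Sv A P N) : Prop :=
  x ≠ y ∧ Xor (SS c x y) (g (lay x) (lay y))

theorem md_eq {u w : V} {h : P u ∧ A u w} {i : Fin N} :
    (.md u w h i : Sv A P N) = ps N u w h (i.1 + 1) := by
  rw [ps_md u w h (by omega) (by omega)]
  rfl

theorem rt_md {u w : V} {h : P u ∧ A u w} {i : Fin N} : rt (.md u w h i : Sv A P N) =
    if i.1 = 0 then some u else if i.1 + 1 = N then some w else none := rfl

theorem lay_md {u w : V} {h : P u ∧ A u w} {i : Fin N} : lay (.md u w h i : Sv A P N) =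
    min (i.1 + 1) (N - i.1) := rfl

theorem bs_oo (hN : 2 ≤ N) (v w : V) : ¬ BS (.o v : Sv A P N) (.o w) := by
  rintro ⟨u', w', h, j, hj, ⟨h1, h2⟩ | ⟨h1, h2⟩⟩
  all_goals
    rcases ps_eq_o h1.symm with ⟨h3, -⟩ | ⟨h3, -⟩ <;>
      rcases ps_eq_o h2.symm with ⟨h4, -⟩ | ⟨h4, -⟩ <;> omega

theorem bs_mo (hN : 2 ≤ N) {u w : V} {h : P u ∧ A u w} {i : Fin N} (v : V) :
    BS (.md u w h i : Sv A P N) (.o v) ↔ rt (.md u w h i : Sv A P N) = some v := by
  have hi := i.2
  rw [rt_md, md_eq, nb_md (j := i.1 + 1) (by omega) (by omega)]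
  constructor
  · rintro (e | e)
    · rcases ps_eq_o e.symm with ⟨h1, rfl⟩ | ⟨h1, -⟩
      · rw [if_pos (by omega)]
      · omega
    · rcases ps_eq_o e.symm with ⟨h1, -⟩ | ⟨h1, rfl⟩
      · omega
      · rw [if_neg (by omega), if_pos (by omega)]
  · split_ifs with h1 h2
    · intro e
      left
      rw [h1, ← Option.some.inj e]
      rfl
    · intro e
      right
      rw [ps_last u w h (by omega), ← Option.some.inj e]
    · intro e
      exact absurd e (by simp)

theorem bs_mm {u w : V} {h : P u ∧ A u w} {i : Fin N} {u' w' : V}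
    {h' : P u' ∧ A u' w'} {i' : Fin N} :
    BS (.md u w h i : Sv A P N) (.md u' w' h' i') ↔
      u = u' ∧ w = w' ∧ (i.1 + 1 = i'.1 ∨ i'.1 + 1 = i.1) := by
  have hi := i.2
  have hi' := i'.2
  rw [md_eq (i := i), nb_md (by omega) (by omega)]
  constructor
  · rintro (e | e)
    · obtain ⟨e1, e2, e3⟩ := ps_eq_md e.symm
      exact ⟨e1, e2, by omega⟩
    · obtain ⟨e1, e2, e3⟩ := ps_eq_md e.symm
      exact ⟨e1, e2, by omega⟩
  · rintro ⟨rfl, rfl, e | e⟩
    · right
      rw [md_eq, e]
    · left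
      rw [md_eq]
      congr 1

/-- roots -/
def Root (x : Sv A P N) : Prop := ∃ v, x = .o v

theorem not_root_md {u w : V} {h : P u ∧ A u w} {i : Fin N} : ¬ Root (.md u w h i : Sv A P N) := by
  rintro ⟨v, hv⟩
  exact absurd hv (by simp)

theorem lay_zero (x : Sv A P N) : lay x = 0 ↔ Root x := by
  cases x with
  | o v => exact ⟨fun _ => ⟨v, rfl⟩, fun _ => rfl⟩
  | md u w h i =>
    refine iff_of_false ?_ not_root_md
    have := i.2
    rw [lay_md]
    omega

theorem rt_root {x : Sv A P N} {v : V} (h : rt x = some v) : ¬ Root x := by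
  rintro ⟨v', rfl⟩
  exact absurd h (by simp [rt])

theorem bs_root (hN : 2 ≤ N) (x : Sv A P N) (v : V) : BS x (.o v) ↔ rt x = some v := by
  cases x with
  | o w => exact iff_of_false (bs_oo hN _ _) (by simp [rt])
  | md u w h i => exact bs_mo hN v

theorem bs_root' (hN : 2 ≤ N) (x : Sv A P N) (v : V) : BS (.o v) x ↔ rt x = some v := by
  rw [← bs_root hN]
  exact ⟨bs_symm, bs_symm⟩

/-- the layer of the neighbours of roots -/
theorem lay_rt (hN : 2 ≤ N) {x : Sv A P N} {v : V} (h : rt x = some v) : lay x = 1 := by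
  cases x with
  | o w => exact absurd h (by simp [rt])
  | md u w h0 i =>
    have := i.2
    rw [rt_md] at h
    rw [lay_md]
    split_ifs at h with h1 h2
    · omega
    · omega

variable (hP : ∀ u w, A u w → (P u ↔ ¬ P w)) (hN : 2 ≤ N)
  (hA : ∀ u, ∃ᶠ w in cofinite, A u w) (hs : ∀ u w, A u w → A w u)

include hP hN in
theorem bs_rt {x y : Sv A P N} {v : V} (hx : rt x = some v) (hy : rt y = some v) : ¬ BS x y := by
  intro h
  cases x with
  | o w => exact absurd hx (by simp [rt])
  | md u w h0 i =>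
    cases y with
    | o w => exact absurd hy (by simp [rt])
    | md u' w' h0' i' =>
      obtain ⟨rfl, rfl, h1⟩ := bs_mm.1 h
      have h2 : u ≠ w := by
        rintro rfl
        have := hP _ _ h0.2
        tauto
      have := i.2
      have := i'.2
      rw [rt_md] at hx hy
      split_ifs at hx hy with h3 h4 h5 h6 <;>
        first
          | omega
          | exact h2 (Option.some.inj (hx.trans hy.symm))
          | exact h2 (Option.some.inj (hy.trans hx.symm))

/-- vertices that are not roots have finitely many neighbours -/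
theorem ev_nb {w : Sv A P N} (hw : ¬ Root w) : ∀ᶠ z in cofinite, ¬ BS w z := by
  cases w with
  | o v => exact absurd ⟨v, rfl⟩ hw
  | md u w h i =>
    have hi := i.2
    rw [md_eq]
    refine Set.Finite.subset (s := {ps N u w h (i.1 + 1 - 1), ps N u w h (i.1 + 1 + 1)})
      (by simp) fun z hz => ?_
    have h1 : BS (ps N u w h (i.1 + 1)) z := by
      by_contra h2
      exact hz h2
    rw [nb_md (by omega) (by omega)] at h1
    rcases h1 with rfl | rfl
    · left
      rfl
    · right
      rfl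

include hP hA hs in
/-- there are infinitely many vertices of the same kind -/
theorem fr_same {z : Sv A P N} (hz : ¬ Root z) :
    ∃ᶠ z' : Sv A P N in cofinite, lay z' = lay z ∧ rt z' = rt z := by
  cases z with
  | o v => exact absurd ⟨v, rfl⟩ hz
  | md u w h i =>
    have hi := i.2
    by_cases h1 : i.1 + 1 = N ∧ i.1 ≠ 0
    · have h2 : {u' | A w u'}.Infinite := Filter.frequently_cofinite_iff_infinite.1 (hA w)
      have hPw : ∀ u', A w u' → P u' ∧ A u' w := by
        intro u' hu'
        have h3 := hP _ _ h.2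
        have h4 := hP _ _ hu'
        exact ⟨by tauto, hs _ _ hu'⟩
      rw [Filter.frequently_cofinite_iff_infinite]
      have h5 : (Set.range fun u' : {u' | A w u'} =>
          (.md u'.1 w (hPw u'.1 u'.2) i : Sv A P N)).Infinite := by
        have := h2.to_subtype
        refine Set.infinite_range_of_injective fun a b hab => ?_
        simp only [Sv.md.injEq] at hab
        exact Subtype.ext hab.1
      refine h5.mono ?_
      rintro _ ⟨u', rfl⟩
      refine ⟨rfl, ?_⟩
      rw [rt_md, rt_md, if_neg h1.2, if_pos h1.1, if_neg h1.2]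
    · have h2 : {w' | A u w'}.Infinite := Filter.frequently_cofinite_iff_infinite.1 (hA u)
      rw [Filter.frequently_cofinite_iff_infinite]
      have h5 : (Set.range fun w' : {w' | A u w'} =>
          (.md u w'.1 ⟨h.1, w'.2⟩ i : Sv A P N)).Infinite := by
        have := h2.to_subtype
        refine Set.infinite_range_of_injective fun a b hab => ?_
        simp only [Sv.md.injEq] at hab
        exact Subtype.ext hab.2.1
      refine h5.mono ?_
      rintro _ ⟨w', rfl⟩
      refine ⟨rfl, ?_⟩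
      rw [rt_md, rt_md]
      by_cases h3 : i.1 = 0
      · rw [if_pos h3, if_pos h3]
      · have h4 : ¬ i.1 + 1 = N := fun h4 => h1 ⟨h4, h3⟩
        rw [if_neg h3, if_neg h4, if_neg h3, if_neg h4]

end sub

end Pool.Agent.Run7.h653.AE
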