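import Pool.Agent.Run7.h653.AE.Cod
import Pool.Agent.Run7.h653.MD.Cross

/-!
The codes are induced subgraphs of flipped crossings.
-/

set_option autoImplicit false

namespace Pool.Agent.Run7.h653.AE

open Pool.Agent.TH748.CG
open Pool.Agent.Run7.h653.MD (Kind Vtx Edge crossing)

section

variable {V : Type} {A : V → V → Prop} {P : V → Prop} {N : ℕ} {c : Prop}

theorem ss_oo (hN : 2 ≤ N) (v v' : V) : ¬ SS c (.o v : Sv A P N) (.o v') := by
  rintro (h | ⟨-, -, a, h, -⟩)
  · exact bs_oo hN _ _ h
  · exact absurd h (by simp [rt])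

theorem ss_om (hN : 2 ≤ N) (v : V) {u w : V} {h : P u ∧ A u w} {i : Fin N} :
    SS c (.o v : Sv A P N) (.md u w h i) ↔ (i.1 = 0 ∧ v = u) ∨ (i.1 + 1 = N ∧ v = w) := by
  have hi := i.2
  unfold SS
  rw [bs_root' hN, rt_md]
  constructor
  · rintro (h1 | ⟨-, -, a, h1, -⟩)
    · split_ifs at h1 with h2 h3
      · exact Or.inl ⟨h2, (Option.some.inj h1).symm⟩
      · exact Or.inr ⟨h3, (Option.some.inj h1).symm⟩
    · exact absurd h1 (by simp [rt])
  · rintro (⟨h1, rfl⟩ | ⟨h1, rfl⟩)
    · left
      rw [if_pos h1]
    · left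
      rw [if_neg (by omega), if_pos h1]

theorem ss_mm (hP : ∀ u w, A u w → (P u ↔ ¬ P w)) (hN : 2 ≤ N) {u w : V} {h : P u ∧ A u w}
    {i : Fin N} {u' w' : V} {h' : P u' ∧ A u' w'} {i' : Fin N} :
    SS c (.md u w h i : Sv A P N) (.md u' w' h' i') ↔
      (u = u' ∧ w = w' ∧ (i.1 + 1 = i'.1 ∨ i'.1 + 1 = i.1)) ∨
      (c ∧ ((i.1 = 0 ∧ i'.1 = 0 ∧ u = u' ∧ w ≠ w') ∨
        (i.1 + 1 = N ∧ i'.1 + 1 = N ∧ w = w' ∧ u ≠ u'))) := by
  have hi := i.2
  have hi' := i'.2
  have hw : ¬ P w := (hP _ _ h.2).1 h.1
  have hw' : ¬ P w' := (hP _ _ h'.2).1 h'.1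
  have n1 : u ≠ w' := fun e => hw' (e ▸ h.1)
  have n2 : w ≠ u' := fun e => hw (e ▸ h'.1)
  unfold SS
  rw [bs_mm, rt_md, rt_md]
  refine or_congr Iff.rfl (and_congr Iff.rfl ?_)
  constructor
  · rintro ⟨h1, v, h2, h3⟩
    split_ifs at h2 h3 with h4 h5 h6 h7
    · left
      have e := Option.some.inj (h2.trans h3.symm)
      refine ⟨h4, h5, e, ?_⟩
      rintro rfl
      subst e
      exact h1 (by rw [show i = i' from Fin.ext (by omega)])
    · exact absurd (Option.some.inj (h2.trans h3.symm)) n1
    · exact absurd (Option.some.inj (h2.trans h3.symm)) n2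
    · right
      have e := Option.some.inj (h2.trans h3.symm)
      refine ⟨by assumption, by assumption, e, ?_⟩
      rintro rfl
      subst e
      exact h1 (by rw [show i = i' from Fin.ext (by omega)])
  · rintro (⟨h1, h2, rfl, h3⟩ | ⟨h1, h2, rfl, h3⟩)
    · refine ⟨?_, u, ?_, ?_⟩
      · intro e
        simp only [Sv.md.injEq] at e
        exact h3 e.2.1
      · rw [if_pos h1]
      · rw [if_pos h2]
    · refine ⟨?_, w, ?_, ?_⟩
      · intro e
        simp only [Sv.md.injEq] at e
        exact h3 e.1
      · rw [if_neg (by omega), if_pos h1]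
      · rw [if_neg (by omega), if_pos h2]

variable {ι : Type} (a1 : V → ι) (a2 : V × V → ι) (r : ℕ)

/-- the positions -/
def pos : Sv A P N → Vtx ι r
  | .o v => .a (a1 v)
  | .md u w _ i => if h : i.1 < r then .p (a1 u) (a2 (u, w)) ⟨i.1, h⟩ else
      if h' : N - 1 - i.1 < r then .p (a1 w) (a2 (u, w)) ⟨N - 1 - i.1, h'⟩ else .b (a2 (u, w))

theorem pos_md {u w : V} {h : P u ∧ A u w} {i : Fin N} :
    pos a1 a2 r (.md u w h i : Sv A P N) = if h : i.1 < r then .p (a1 u) (a2 (u, w)) ⟨i.1, h⟩ else
      if h' : N - 1 - i.1 < r then .p (a1 w) (a2 (u, w)) ⟨N - 1 - i.1, h'⟩ else .b (a2 (u, w)) :=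
  rfl

theorem pos_o {v : V} : pos a1 a2 r (.o v : Sv A P N) = .a (a1 v) := rfl

variable (hP : ∀ u w, A u w → (P u ↔ ¬ P w)) (h1 : Function.Injective a1)
  (h2 : Function.Injective a2) (hr : 1 ≤ r) (hN : c → N = 2 * r) (hN' : ¬ c → N = 2 * r + 1)

include hr hN hN' in
theorem lay_pos (x : Sv A P N) : (pos a1 a2 r x).layer.val = lay x := by
  have hNr : N = 2 * r ∨ N = 2 * r + 1 := by
    by_cases hc : c
    · exact Or.inl (hN hc)
    · exact Or.inr (hN' hc)
  cases x with
  | o v => rfl
  | md u w h i =>
    have hi := i.2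
    rw [pos_md, lay_md]
    split_ifs with h3 h4
    · show i.1 + 1 = _
      omega
    · show N - 1 - i.1 + 1 = _
      omega
    · show r + 1 = _
      omega

include hP h1 h2 hr hN hN' in
theorem pos_inj : Function.Injective (pos a1 a2 r : Sv A P N → Vtx ι r) := by
  have hNr : N = 2 * r ∨ N = 2 * r + 1 := by
    by_cases hc : c
    · exact Or.inl (hN hc)
    · exact Or.inr (hN' hc)
  intro x y h
  cases x with
  | o v =>
    cases y with
    | o w =>
      rw [pos_o, pos_o, Vtx.a.injEq] at h
      rw [h1 h]
    | md u w h0 i =>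
      rw [pos_o, pos_md] at h
      split_ifs at h
  | md u w h0 i =>
    cases y with
    | o v =>
      rw [pos_o, pos_md] at h
      split_ifs at h
    | md u' w' h0' i' =>
      have hi := i.2
      have hi' := i'.2
      have hw : ¬ P w := (hP _ _ h0.2).1 h0.1
      have hw' : ¬ P w' := (hP _ _ h0'.2).1 h0'.1
      have key : ∀ {u w u' w' : V} {h0 : P u ∧ A u w} {h0' : P u' ∧ A u' w'} {i i' : Fin N},
          (u, w) = (u', w') → i.1 = i'.1 → (.md u w h0 i : Sv A P N) = .md u' w' h0' i' := by
        intro u w u' w' h0 h0' i i' e1 e2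
        obtain ⟨rfl, rfl⟩ := Prod.mk.inj e1
        rw [show i = i' from Fin.ext e2]
      rw [pos_md, pos_md] at h
      split_ifs at h with h3 h4 h5 h6 h7 h8
      all_goals first
        | (rw [Vtx.p.injEq] at h
           obtain ⟨e1, e2, e3⟩ := h
           have e1 := h1 e1
           have e2 := h2 e2
           have e3 := congrArg Fin.val e3
           have e4 := (Prod.mk.inj e2).1
           have e5 := (Prod.mk.inj e2).2
           first
             | exact key e2 (by simpa using e3)
             | exact key e2 (by simp only at e3; omega)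
             | (exfalso; subst e1; exact hw' (by first | exact h0.1 | exact h0'.1))
             | (exfalso; subst e1; exact hw (by first | exact h0.1 | exact h0'.1)))
        | (rw [Vtx.b.injEq] at h
           exact key (h2 h) (by omega))

variable [LinearOrder ι]

include hP h1 h2 hr hN hN' in
theorem pos_edge {κ : Kind} (hκ : κ = Kind.clique ↔ c) (hκ' : κ ≠ Kind.half) (x y : Sv A P N) :
    SS c x y ↔ (Edge κ (pos a1 a2 r x) (pos a1 a2 r y) ∨ Edge κ (pos a1 a2 r y) (pos a1 a2 r x)) := by
  have hNr : N = 2 * r ∨ N = 2 * r + 1 := by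
    by_cases hc : c
    · exact Or.inl (hN hc)
    · exact Or.inr (hN' hc)
  have hN2 : 2 ≤ N := by omega
  have hom : ∀ (v : V) (x : Sv A P N), SS c (.o v) x ↔ (Edge κ (pos a1 a2 r (.o v : Sv A P N))
      (pos a1 a2 r x) ∨ Edge κ (pos a1 a2 r x) (pos a1 a2 r (.o v : Sv A P N))) := by
    intro v x
    cases x with
    | o v' => exact iff_of_false (ss_oo hN2 _ _) (by simp [pos_o, Edge])
    | md u w h i =>
      have hi := i.2
      rw [ss_om hN2, pos_o, pos_md]
      split_ifs with h3 h4
      · simp only [Edge, hκ', false_and, or_false, h1.eq_iff]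
        constructor
        · rintro (h | h)
          · exact h
          · omega
        · exact Or.inl
      · simp only [Edge, hκ', false_and, or_false, h1.eq_iff]
        constructor
        · rintro (h | h)
          · omega
          · exact ⟨by omega, h.2⟩
        · exact fun h => Or.inr ⟨by omega, h.2⟩
      · simp only [Edge, or_false, iff_false]
        omega
  cases x with
  | o v => exact hom v y
  | md u w h i =>
    cases y with
    | o v => rw [ss_comm, hom v, or_comm]
    | md u' w' h' i' =>
      have hi := i.2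
      have hi' := i'.2
      have hw : ¬ P w := (hP _ _ h.2).1 h.1
      have hw' : ¬ P w' := (hP _ _ h'.2).1 h'.1
      have n1 : u ≠ w' := fun e => hw' (e ▸ h.1)
      have n2 : w ≠ u' := fun e => hw (e ▸ h'.1)
      have n3 : u ≠ w := fun e => hw (e ▸ h.1)
      rw [ss_mm hP hN2, pos_md, pos_md]
      by_cases hc : c
      · have hk := hκ.2 hc
        have hn := hN hc
        by_cases eu : u = u' <;> by_cases ew : w = w'
        · subst eu
          subst ew
          split_ifs with h3 h4 h5 h6 h7 h8 <;>
            simp only [Edge, hk, reduceCtorEq, h1.eq_iff, n3, n3.symm, true_and, false_and,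
              and_true, and_false, or_false, false_or, ne_eq, not_true, not_false_iff,
              iff_false, false_iff, hc] <;>
            omega
        · subst eu
          have ew' : ¬ w' = w := fun e => ew e.symm
          split_ifs with h3 h4 h5 h6 h7 h8 <;>
            simp only [Edge, hk, reduceCtorEq, h1.eq_iff, h2.eq_iff, Prod.mk.injEq, n1, n2, n3, n1.symm,
              n2.symm, n3.symm, ew, ew', true_and, false_and,
              and_true, and_false, or_false, false_or, ne_eq, not_true, not_false_iff,
              iff_false, false_iff, hc] <;>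
            omega
        · subst ew
          have eu' : ¬ u' = u := fun e => eu e.symm
          split_ifs with h3 h4 h5 h6 h7 h8 <;>
            simp only [Edge, hk, reduceCtorEq, h1.eq_iff, h2.eq_iff, Prod.mk.injEq, n1, n2, n3, n1.symm,
              n2.symm, n3.symm, eu, eu', true_and, false_and,
              and_true, and_false, or_false, false_or, ne_eq, not_true, not_false_iff,
              iff_false, false_iff, hc] <;>
            omega
        · have eu' : ¬ u' = u := fun e => eu e.symm
          have ew' : ¬ w' = w := fun e => ew e.symm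
          split_ifs with h3 h4 h5 h6 h7 h8 <;>
            simp only [Edge, hk, reduceCtorEq, h1.eq_iff, h2.eq_iff, Prod.mk.injEq, n1, n2, n3, n1.symm,
              n2.symm, n3.symm, eu, eu', ew, ew', true_and, false_and,
              and_true, and_false, or_false, false_or, ne_eq, not_true, not_false_iff,
              iff_false, false_iff, hc]
      · have hk : ¬ κ = Kind.clique := fun h => hc (hκ.1 h)
        have hn := hN' hc
        by_cases eu : u = u' <;> by_cases ew : w = w'
        · subst eu
          subst ew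
          split_ifs with h3 h4 h5 h6 h7 h8 <;>
            simp only [Edge, hκ', hk, h1.eq_iff, h2.eq_iff, n3, n3.symm, true_and, false_and,
              and_true, and_false, or_false, false_or, ne_eq, not_true, not_false_iff,
              iff_false, false_iff, hc] <;>
            omega
        · subst eu
          have ew' : ¬ w' = w := fun e => ew e.symm
          split_ifs with h3 h4 h5 h6 h7 h8 <;>
            simp only [Edge, hκ', hk, h1.eq_iff, h2.eq_iff, Prod.mk.injEq, n1, n2, n3, n1.symm,
              n2.symm, n3.symm, ew, ew', true_and, false_and,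
              and_true, and_false, or_false, false_or, ne_eq, not_true, not_false_iff,
              iff_false, false_iff, hc]
        · subst ew
          have eu' : ¬ u' = u := fun e => eu e.symm
          split_ifs with h3 h4 h5 h6 h7 h8 <;>
            simp only [Edge, hκ', hk, h1.eq_iff, h2.eq_iff, Prod.mk.injEq, n1, n2, n3, n1.symm,
              n2.symm, n3.symm, eu, eu', true_and, false_and,
              and_true, and_false, or_false, false_or, ne_eq, not_true, not_false_iff,
              iff_false, false_iff, hc]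
        · have eu' : ¬ u' = u := fun e => eu e.symm
          have ew' : ¬ w' = w := fun e => ew e.symm
          split_ifs with h3 h4 h5 h6 h7 h8 <;>
            simp only [Edge, hκ', hk, h1.eq_iff, h2.eq_iff, Prod.mk.injEq, n1, n2, n3, n1.symm,
              n2.symm, n3.symm, eu, eu', ew, ew', true_and, false_and,
              and_true, and_false, or_false, false_or, ne_eq, not_true, not_false_iff,
              iff_false, false_iff, hc]

/-- the flip as a relation on layers -/
def gF (r : ℕ) (F : Set (Sym2 (Fin (r + 2)))) (i j : ℕ) : Prop :=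
  ∃ (hi : i < r + 2) (hj : j < r + 2), s((⟨i, hi⟩ : Fin (r + 2)), ⟨j, hj⟩) ∈ F

theorem gF_iff {r : ℕ} {F : Set (Sym2 (Fin (r + 2)))} {i j : ℕ} {a b : Fin (r + 2)}
    (ha : a.val = i) (hb : b.val = j) : gF r F i j ↔ s(a, b) ∈ F := by
  subst ha
  subst hb
  constructor
  · rintro ⟨hi, hj, h⟩
    exact h
  · intro h
    exact ⟨a.2, b.2, h⟩

include hP h1 h2 hr hN hN' in
theorem yy_cross {κ : Kind} (hκ : κ = Kind.clique ↔ c) (hκ' : κ ≠ Kind.half)
    (F : Set (Sym2 (Fin (r + 2)))) (x y : Sv A P N) :
    YY c (gF r F) x y ↔ (crossing κ ι r F).Adj (pos a1 a2 r x) (pos a1 a2 r y) := by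
  have hi := pos_inj (c := c) a1 a2 r hP h1 h2 hr hN hN'
  unfold YY crossing
  simp only
  rw [pos_edge a1 a2 r hP h1 h2 hr hN hN' hκ hκ', gF_iff (F := F) (lay_pos a1 a2 r hr hN hN' x)
    (lay_pos a1 a2 r hr hN hN' y), Ne, Ne, hi.eq_iff]

end

end Pool.Agent.Run7.h653.AE
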